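import Mathlib
import Pool.Agent.H476R3.ThF

/-!
# Boomerang subgroups of Thompson's group `F` are normal

Every nontrivial boomerang subgroup of `F` contains the derived subgroup `[F, F]`.
-/

namespace Pool.Agent.Results.MP_bd6a20_al.BoomerangsNormal

open Pool.Agent.H476R3.ThF

open scoped commutatorElement

/-- `γ` is a recurrent direction for the subgroup `Δ` of `Γ`. -/
def Recurrent {Γ : Type*} [Group Γ] (Δ : Subgroup Γ) (γ : Γ) : Prop :=
  ∀ A B : Finset Γ, (∀ a ∈ A, a ∈ Δ) → (∀ b ∈ B, b ∉ Δ) →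
    ∃ n : ℕ, 1 ≤ n ∧
      (∀ a ∈ A, a ∈ Δ.map (MulAut.conj (γ ^ n)).toMonoidHom) ∧
      (∀ b ∈ B, b ∉ Δ.map (MulAut.conj (γ ^ n)).toMonoidHom)

/-- `Δ` is a boomerang subgroup of `Γ`. -/
def IsBoomerang {Γ : Type*} [Group Γ] (Δ : Subgroup Γ) : Prop := ∀ γ : Γ, Recurrent Δ γ

theorem mem_map_conj {Γ : Type*} [Group Γ] (Δ : Subgroup Γ) (g a : Γ) :
    a ∈ Δ.map (MulAut.conj g).toMonoidHom ↔ g⁻¹ * a * g ∈ Δ := by
  rw [Subgroup.mem_map]
  constructor
  · rintro ⟨x, hx, rfl⟩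
    simpa [mul_assoc] using hx
  · intro h
    exact ⟨_, h, by simp [mul_assoc]⟩

/-- Thompson's group -/
abbrev F : Type := ThompsonF

variable {f g h : F} {a b c d : UI}

theorem mul_app (f g : F) (x : UI) : (f * g).1 x = f.1 (g.1 x) := rfl

theorem inv_app (f : F) (x : UI) : (f⁻¹).1 x = f.1.symm x := rfl

theorem inv_app_self (f : F) (x : UI) : (f⁻¹).1 (f.1 x) = x := f.1.symm_apply_apply x

theorem app_inv_self (f : F) (x : UI) : f.1 ((f⁻¹).1 x) = x := f.1.apply_symm_apply x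

theorem ext_app {f g : F} (h : ∀ x, f.1 x = g.1 x) : f = g :=
  Subtype.ext (OrderIso.ext (funext h))

/-! ### Supports -/

/-- `f` is the identity outside of `[a, b]` -/
def Sup (f : F) (a b : UI) : Prop := ∀ x : UI, (x ≤ a ∨ b ≤ x) → f.1 x = x

theorem Sup.one : Sup 1 a b := fun _ _ => rfl

theorem Sup.mul (hf : Sup f a b) (hg : Sup g a b) : Sup (f * g) a b := by
  intro x hx
  rw [mul_app, hg x hx, hf x hx]

theorem Sup.inv (hf : Sup f a b) : Sup f⁻¹ a b := by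
  intro x hx
  have h := hf x hx
  conv_lhs => rw [← h]
  exact inv_app_self f x

theorem Sup.pow (hf : Sup f a b) (n : ℕ) : Sup (f ^ n) a b := by
  induction n with
  | zero => rw [pow_zero]; exact Sup.one
  | succ n ih => rw [pow_succ]; exact ih.mul hf

theorem Sup.zpow (hf : Sup f a b) (n : ℤ) : Sup (f ^ n) a b := by
  cases n with
  | ofNat n => simpa using hf.pow n
  | negSucc n => rw [zpow_negSucc]; exact (hf.pow _).inv

theorem Sup.mono (hf : Sup f a b) (h1 : c ≤ a) (h2 : b ≤ d) : Sup f c d := by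
  intro x hx
  apply hf
  rcases hx with hx | hx
  · exact Or.inl (hx.trans h1)
  · exact Or.inr (h2.trans hx)

theorem Sup.conj (hf : Sup f a b) (h : F) : Sup (h * f * h⁻¹) (h.1 a) (h.1 b) := by
  intro x hx
  rw [mul_app, mul_app, hf, app_inv_self]
  rcases hx with hx | hx
  · left
    rw [inv_app]
    exact (h.1.symm_apply_le).2 hx
  · right
    rw [inv_app]
    exact (h.1.le_symm_apply).2 hx

theorem Sup.conj' (hf : Sup f a b) (h : F) : Sup (h⁻¹ * f * h) ((h⁻¹).1 a) ((h⁻¹).1 b) := by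
  have := hf.conj h⁻¹
  rwa [inv_inv] at this

theorem Sup.comm (hf : Sup f a b) (hg : Sup g c d) (h : b ≤ c) : Commute f g := by
  apply ext_app
  intro x
  rw [mul_app, mul_app]
  rcases le_total x b with hx | hx
  · have h1 : g.1 x = x := hg x (Or.inl (hx.trans h))
    have h2 : f.1 x ≤ b := by
      have h3 : f.1 b = b := hf b (Or.inr le_rfl)
      rw [← h3]
      exact f.1.monotone hx
    rw [h1, hg _ (Or.inl (h2.trans h))]
  · have h1 : f.1 x = x := hf x (Or.inr hx)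
    have h2 : b ≤ g.1 x := by
      have h3 : g.1 b = b := hg b (Or.inl h)
      rw [← h3]
      exact g.1.monotone hx
    rw [h1, hf _ (Or.inr h2)]

/-! ### The commutator trick -/

theorem commutator_mul {G : Type*} [Group G] {f g X Z : G} (h1 : Commute X (g * Z))
    (h2 : Commute Z f) : ⁅f * X, g * Z⁆ = ⁅f, g⁆ := by
  rw [commutatorElement_def, commutatorElement_def]
  have e1 : X * (g * Z) * X⁻¹ = g * Z := by rw [h1.eq, mul_inv_cancel_right]
  have e2 : Z * f⁻¹ * Z⁻¹ = f⁻¹ := by rw [(h2.inv_right).eq, mul_inv_cancel_right]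
  calc f * X * (g * Z) * (f * X)⁻¹ * (g * Z)⁻¹
      = f * (X * (g * Z) * X⁻¹) * f⁻¹ * (g * Z)⁻¹ := by group
    _ = f * g * (Z * f⁻¹ * Z⁻¹) * g⁻¹ := by rw [e1]; group
    _ = f * g * f⁻¹ * g⁻¹ := by rw [e2]

variable {Δ : Subgroup F}

theorem shuffle {G : Type*} [Group G] {A B C D : G} (h1 : Commute C B) (h2 : Commute C D) :
    A * B * (C⁻¹ * D⁻¹)⁻¹ = A * C * (B * D) := by
  rw [mul_inv_rev, inv_inv, inv_inv, ← h2.eq, mul_assoc, ← mul_assoc B, ← h1.eq]
  simp only [mul_assoc]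

/-- a power of `h⁻¹ (δ h δ⁻¹)` lies in `Δ` -/
theorem pow_mem (hΔ : IsBoomerang Δ) {δ : F} (hδ : δ ∈ Δ) (h : F) : ∃ n : ℕ, 1 ≤ n ∧ h⁻¹ ^ n * (δ * h * δ⁻¹) ^ n ∈ Δ := by
  obtain ⟨n, hn, h1, -⟩ := hΔ h {δ} ∅ (by simpa using hδ) (by simp)
  refine ⟨n, hn, ?_⟩
  have h2 := h1 δ (by simp)
  rw [mem_map_conj] at h2
  have h3 := Δ.mul_mem h2 (Δ.inv_mem hδ)
  have h4 : (δ * h * δ⁻¹) ^ n = δ * h ^ n * δ⁻¹ := conj_pow
  rw [h4, inv_pow]
  simpa [mul_assoc] using h3

theorem pow_mem_mul (hΔ : IsBoomerang Δ) {δ : F} (hδ : δ ∈ Δ) (h : F)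
    (hc : Commute h (δ * h * δ⁻¹)) : ∃ n : ℕ, 1 ≤ n ∧
      ∀ k : ℕ, h⁻¹ ^ (n * k) * (δ * h * δ⁻¹) ^ (n * k) ∈ Δ := by
  obtain ⟨n, hn, h1⟩ := pow_mem hΔ hδ h
  refine ⟨n, hn, fun k => ?_⟩
  have h2 : Commute (h⁻¹ ^ n) ((δ * h * δ⁻¹) ^ n) := (hc.inv_left).pow_pow n n
  rw [pow_mul, pow_mul, ← h2.mul_pow]
  exact Δ.pow_mem h1 k

/-- the combination of two directions -/
theorem combine (hΔ : IsBoomerang Δ) {δ : F} (hδ : δ ∈ Δ) (γ h : F)
    (h1 : Commute γ (δ * γ * δ⁻¹)) (h2 : Commute h (δ * h * δ⁻¹))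
    (h3 : Commute h (δ * γ * δ⁻¹)) :
    ∃ N : ℕ, 1 ≤ N ∧ (γ⁻¹ ^ N * h ^ N) * ((δ * γ * δ⁻¹) ^ N * ((δ * h * δ⁻¹)⁻¹) ^ N) ∈ Δ := by
  obtain ⟨n, hn, h4⟩ := pow_mem_mul hΔ hδ γ h1
  obtain ⟨m, hm, h5⟩ := pow_mem_mul hΔ hδ h h2
  refine ⟨n * m, Nat.mul_pos hn hm, ?_⟩
  have h6 := h4 m
  have h7 := h5 n
  rw [Nat.mul_comm m n] at h7
  have h8 := Δ.mul_mem h6 (Δ.inv_mem h7)
  have c1 : Commute (h ^ (n * m)) ((δ * γ * δ⁻¹) ^ (n * m)) := h3.pow_pow _ _
  have c2 : Commute (h ^ (n * m)) (((δ * h * δ⁻¹)⁻¹) ^ (n * m)) := (h2.inv_right).pow_pow _ _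
  have e := shuffle (A := γ⁻¹ ^ (n * m)) c1 c2
  rw [← e]
  have e1 : (h ^ (n * m))⁻¹ = h⁻¹ ^ (n * m) := (inv_pow _ _).symm
  have e2 : (((δ * h * δ⁻¹)⁻¹) ^ (n * m))⁻¹ = (δ * h * δ⁻¹) ^ (n * m) := by
    rw [inv_pow, inv_inv]
  rw [e1, e2]
  exact h8

/-- the product of the conjugates, left version -/
theorem left_part {γ f : F} {u p q : UI} (hup : u ≤ p) (hpq : p ≤ q)
    (hu : (γ⁻¹).1 u = u) (hp : (γ⁻¹).1 q = p) (hf : Sup f p q) (N : ℕ) :
    ∃ L : F, Sup L u p ∧ γ⁻¹ ^ (N + 1) * (γ * f) ^ (N + 1) = L * f := by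
  induction N with
  | zero => exact ⟨1, Sup.one, by simp⟩
  | succ N ih =>
    obtain ⟨L, hL, e⟩ := ih
    refine ⟨γ⁻¹ * (L * f) * γ, ?_, ?_⟩
    · have h1 : Sup (L * f) u q := (hL.mono le_rfl hpq).mul (hf.mono hup le_rfl)
      have h2 := h1.conj' γ
      rwa [hu, hp] at h2
    · rw [← e, pow_succ' _ (N + 1), pow_succ _ (N + 1)]
      simp only [mul_assoc]

/-- the product of the conjugates, right version -/
theorem right_part {γ f : F} {p q v : UI} (hqv : q ≤ v) (hpq : p ≤ q)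
    (hv : (γ⁻¹).1 v = v) (hp : (γ⁻¹).1 p = q) (hf : Sup f p q) (N : ℕ) :
    ∃ L : F, Sup L q v ∧ γ⁻¹ ^ (N + 1) * (γ * f) ^ (N + 1) = L * f := by
  induction N with
  | zero => exact ⟨1, Sup.one, by simp⟩
  | succ N ih =>
    obtain ⟨L, hL, e⟩ := ih
    refine ⟨γ⁻¹ * (L * f) * γ, ?_, ?_⟩
    · have h1 : Sup (L * f) p v := (hL.mono hpq le_rfl).mul (hf.mono le_rfl hqv)
      have h2 := h1.conj' γ
      rwa [hv, hp] at h2
    · rw [← e, pow_succ' _ (N + 1), pow_succ _ (N + 1)]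
      simp only [mul_assoc]

/-- all commutators of elements supported in a certain interval are in `Δ` -/
theorem local_comm (hΔ : IsBoomerang Δ) {δ γ : F} (hδ : δ ∈ Δ) {u v p q : UI}
    (hv : v ≤ δ.1 u) (hγ : Sup γ u v) (huv : u ≤ v) (hup : u ≤ p) (hpq : p ≤ q) (hqv : q ≤ v)
    (hpq' : (γ⁻¹).1 q = p) (f g : F) (hf : Sup f p q) (hg : Sup g p q) : ⁅f, g⁆ ∈ Δ := by
  -- elements supported in `[u, v]` commute with the conjugates
  have hcomm : ∀ x y : F, Sup x u v → Sup y u v → Commute x (δ * y * δ⁻¹) := by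
    intro x y hx hy
    exact hx.comm (hy.conj δ) hv
  have hv' : (δ⁻¹).1 v ≤ u := by
    rw [inv_app]
    exact (δ.1.symm_apply_le).2 hv
  have hcomm' : ∀ x y : F, Sup x u v → Sup y u v → Commute x (δ⁻¹ * y * δ⁻¹⁻¹) := by
    intro x y hx hy
    exact ((hy.conj δ⁻¹).comm hx hv').symm
  have hfI : Sup f u v := hf.mono hup hqv
  have hgI : Sup g u v := hg.mono hup hqv
  obtain ⟨N, hN, h1⟩ := combine hΔ hδ γ (γ * f) (hcomm _ _ hγ hγ)
    (hcomm _ _ (hγ.mul hfI) (hγ.mul hfI)) (hcomm _ _ (hγ.mul hfI) hγ)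
  obtain ⟨N', hN', h2⟩ := combine hΔ (Δ.inv_mem hδ) γ⁻¹ (γ⁻¹ * g) (hcomm' _ _ hγ.inv hγ.inv)
    (hcomm' _ _ (hγ.inv.mul hgI) (hγ.inv.mul hgI)) (hcomm' _ _ (hγ.inv.mul hgI) hγ.inv)
  obtain ⟨N, rfl⟩ : ∃ k, N = k + 1 := ⟨N - 1, by omega⟩
  obtain ⟨N', rfl⟩ : ∃ k, N' = k + 1 := ⟨N' - 1, by omega⟩
  have hγu : (γ⁻¹).1 u = u := hγ.inv u (Or.inl le_rfl)
  have hγv : (γ⁻¹⁻¹).1 v = v := hγ.inv.inv v (Or.inr le_rfl)
  have hqp : (γ⁻¹⁻¹).1 p = q := by rw [← hpq', inv_app_self]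
  obtain ⟨L, hL, e1⟩ := left_part hup hpq hγu hpq' hf N
  obtain ⟨L', hL', e2⟩ := right_part hqv hpq hγv hqp hg N'
  rw [e1] at h1
  rw [e2] at h2
  set W := (δ * γ * δ⁻¹) ^ (N + 1) * ((δ * (γ * f) * δ⁻¹)⁻¹) ^ (N + 1) with hW
  set W' := (δ⁻¹ * γ⁻¹ * δ⁻¹⁻¹) ^ (N' + 1) * ((δ⁻¹ * (γ⁻¹ * g) * δ⁻¹⁻¹)⁻¹) ^ (N' + 1) with hW'
  have sW : Sup W (δ.1 u) (δ.1 v) :=
    ((hγ.conj δ).pow _).mul (((hγ.mul hfI).conj δ).inv.pow _)
  have sW' : Sup W' ((δ⁻¹).1 u) ((δ⁻¹).1 v) :=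
    ((hγ.inv.conj δ⁻¹).pow _).mul (((hγ.inv.mul hgI).conj δ⁻¹).inv.pow _)
  -- `L`, `W` commute with `L'`, `g`, `W'`
  have c1 : Commute L L' := hL.comm hL' hpq
  have c2 : Commute L g := hL.comm hg le_rfl
  have c3 : Commute L W' := (sW'.comm hL hv').symm
  have c4 : Commute W L' := (hL'.comm sW hv).symm
  have c5 : Commute W g := (hgI.comm sW hv).symm
  have c6 : Commute W W' := (sW'.comm sW (hv'.trans (huv.trans hv))).symm
  have c7 : Commute L' f := (hf.comm hL' le_rfl).symm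
  have c8 : Commute W' f := sW'.comm hfI hv'
  have c9 : Commute L f := hL.comm hf le_rfl
  have c10 : Commute L' g := (hg.comm hL' le_rfl).symm
  have h3 : L * f * W = f * (L * W) := by rw [c9.eq, mul_assoc]
  have h4 : L' * g * W' = g * (L' * W') := by rw [c10.eq, mul_assoc]
  rw [h3] at h1
  rw [h4] at h2
  have h5 : ⁅f * (L * W), g * (L' * W')⁆ = ⁅f, g⁆ := by
    apply commutator_mul
    · exact (c2.mul_left c5).mul_right ((c1.mul_right c3).mul_left (c4.mul_right c6))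
    · exact c7.mul_left c8
  rw [← h5, commutatorElement_def]
  exact Δ.mul_mem (Δ.mul_mem (Δ.mul_mem h1 h2) (Δ.inv_mem h1)) (Δ.inv_mem h2)

/-- the closure principle -/
theorem mem_of_forall (hΔ : IsBoomerang Δ) (b γ : F)
    (h : ∀ n : ℕ, 1 ≤ n → γ ^ n * b * (γ ^ n)⁻¹ ∈ Δ) : b ∈ Δ := by
  by_contra hb
  obtain ⟨n, hn, -, h1⟩ := hΔ γ⁻¹ ∅ {b} (by simp) (by simpa using hb)
  apply h1 b (by simp)
  rw [mem_map_conj]
  have := h n hn
  simpa [inv_pow] using this

theorem pow_app_mono (γ : F) {x : UI} (h : γ.1 x ≤ x) (n : ℕ) : (γ ^ n).1 x ≤ x := by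
  induction n with
  | zero => exact le_rfl
  | succ n ih =>
    rw [pow_succ, mul_app]
    exact ((γ ^ n).1.monotone h).trans ih

theorem pow_app_mono' (γ : F) {x : UI} (h : x ≤ γ.1 x) (n : ℕ) : x ≤ (γ ^ n).1 x := by
  induction n with
  | zero => exact le_rfl
  | succ n ih =>
    rw [pow_succ, mul_app]
    exact ih.trans ((γ ^ n).1.monotone h)

/-- from local commutators to all -/
theorem global_comm (hΔ : IsBoomerang Δ) {p q a b : UI} (γ : F) (hap : a ≤ p) (hqb : q ≤ b)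
    (h1 : p ≤ γ.1 a) (h2 : γ.1 b ≤ q)
    (hloc : ∀ f g : F, Sup f p q → Sup g p q → ⁅f, g⁆ ∈ Δ)
    (f g : F) (hf : Sup f a b) (hg : Sup g a b) : ⁅f, g⁆ ∈ Δ := by
  apply mem_of_forall hΔ _ γ
  intro n hn
  have e : γ ^ n * ⁅f, g⁆ * (γ ^ n)⁻¹ = ⁅γ ^ n * f * (γ ^ n)⁻¹, γ ^ n * g * (γ ^ n)⁻¹⁆ := by
    rw [commutatorElement_def, commutatorElement_def]
    group
  obtain ⟨n, rfl⟩ : ∃ k, n = k + 1 := ⟨n - 1, by omega⟩
  have ha : p ≤ (γ ^ (n + 1)).1 a := by
    rw [pow_succ, mul_app]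
    calc p ≤ γ.1 a := h1
      _ ≤ (γ ^ n).1 (γ.1 a) := by
        apply pow_app_mono'
        exact γ.1.monotone (hap.trans h1)
  have hb : (γ ^ (n + 1)).1 b ≤ q := by
    rw [pow_succ, mul_app]
    calc (γ ^ n).1 (γ.1 b) ≤ γ.1 b := by
          apply pow_app_mono
          exact γ.1.monotone (h2.trans hqb)
      _ ≤ q := h2
  rw [e]
  exact hloc _ _ ((hf.conj _).mono ha hb) ((hg.conj _).mono ha hb)

/-! ### Bump elements -/

/-- the bump function -/
noncomputable def bf (u v s x : ℝ) : ℝ := max x (min (2 * x - u) (min (x + s) ((x + v) / 2)))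

/-- the inverse of the bump function -/
noncomputable def bi (u v s x : ℝ) : ℝ := min x (max ((x + u) / 2) (max (x - s) (2 * x - v)))

theorem bi_bf (u v s x : ℝ) : bi u v s (bf u v s x) = x := by
  unfold bi bf
  rcases le_total x (min (2 * x - u) (min (x + s) ((x + v) / 2))) with h | h
  · rw [max_eq_right h]
    set y := min (2 * x - u) (min (x + s) ((x + v) / 2)) with hy
    have h1 : y ≤ 2 * x - u := min_le_left _ _
    have h2 : y ≤ x + s := (min_le_right _ _).trans (min_le_left _ _)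
    have h3 : y ≤ (x + v) / 2 := (min_le_right _ _).trans (min_le_right _ _)
    have h4 : max ((y + u) / 2) (max (y - s) (2 * y - v)) = x := by
      apply le_antisymm
      · apply max_le
        · linarith
        · apply max_le <;> linarith
      · rcases min_choice (2 * x - u) (min (x + s) ((x + v) / 2)) with h5 | h5
        · exact le_max_of_le_left (by rw [hy, h5]; linarith)
        · rcases min_choice (x + s) ((x + v) / 2) with h6 | h6
          · exact le_max_of_le_right (le_max_of_le_left (by rw [hy, h5, h6]; linarith))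
          · exact le_max_of_le_right (le_max_of_le_right (by rw [hy, h5, h6]; linarith))
    rw [h4]
    exact min_eq_right h
  · rw [max_eq_left h]
    apply min_eq_left
    rcases min_choice (2 * x - u) (min (x + s) ((x + v) / 2)) with h5 | h5
    · rw [h5] at h; exact le_max_of_le_left (by linarith)
    · rw [h5] at h
      rcases min_choice (x + s) ((x + v) / 2) with h6 | h6
      · rw [h6] at h; exact le_max_of_le_right (le_max_of_le_left (by linarith))
      · rw [h6] at h; exact le_max_of_le_right (le_max_of_le_right (by linarith))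

theorem bf_bi (u v s x : ℝ) : bf u v s (bi u v s x) = x := by
  unfold bi bf
  rcases le_total (max ((x + u) / 2) (max (x - s) (2 * x - v))) x with h | h
  · rw [min_eq_right h]
    set y := max ((x + u) / 2) (max (x - s) (2 * x - v)) with hy
    have h1 : (x + u) / 2 ≤ y := le_max_left _ _
    have h2 : x - s ≤ y := (le_max_left _ _).trans (le_max_right _ _)
    have h3 : 2 * x - v ≤ y := (le_max_right _ _).trans (le_max_right _ _)
    have h4 : min (2 * y - u) (min (y + s) ((y + v) / 2)) = x := by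
      apply le_antisymm
      · rcases max_choice ((x + u) / 2) (max (x - s) (2 * x - v)) with h5 | h5
        · exact min_le_of_left_le (by rw [hy, h5]; linarith)
        · rcases max_choice (x - s) (2 * x - v) with h6 | h6
          · exact min_le_of_right_le (min_le_of_left_le (by rw [hy, h5, h6]; linarith))
          · exact min_le_of_right_le (min_le_of_right_le (by rw [hy, h5, h6]; linarith))
      · apply le_min
        · linarith
        · apply le_min <;> linarith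
    rw [h4]
    exact max_eq_right h
  · rw [min_eq_left h]
    apply max_eq_left
    rcases max_choice ((x + u) / 2) (max (x - s) (2 * x - v)) with h5 | h5
    · rw [h5] at h; exact min_le_of_left_le (by linarith)
    · rw [h5] at h
      rcases max_choice (x - s) (2 * x - v) with h6 | h6
      · rw [h6] at h; exact min_le_of_right_le (min_le_of_left_le (by linarith))
      · rw [h6] at h; exact min_le_of_right_le (min_le_of_right_le (by linarith))

theorem bf_mono (u v s : ℝ) : Monotone (bf u v s) := by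
  intro x y h
  unfold bf
  apply max_le_max h
  apply min_le_min (by linarith)
  apply min_le_min (by linarith) (by linarith)

theorem bi_mono (u v s : ℝ) : Monotone (bi u v s) := by
  intro x y h
  unfold bi
  apply min_le_min h
  apply max_le_max (by linarith)
  apply max_le_max (by linarith) (by linarith)

/-- the bump as an automorphism of the ordered set `[0, 1]` -/
noncomputable def bumpIso (u v s : ℝ) (hu : 0 ≤ u) (hv : v ≤ 1) : UI ≃o UI :=
  Equiv.toOrderIso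
    { toFun := fun x => ⟨bf u v s x, x.2.1.trans (le_max_left _ _), by
        apply max_le x.2.2
        apply min_le_of_right_le
        apply min_le_of_right_le
        have := x.2.2
        linarith⟩
      invFun := fun x => ⟨bi u v s x, by
        apply le_min x.2.1
        apply le_max_of_le_left
        have := x.2.1
        linarith, (min_le_left _ _).trans x.2.2⟩
      left_inv := fun x => Subtype.ext (bi_bf u v s x)
      right_inv := fun x => Subtype.ext (bf_bi u v s x) }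
    (fun _ _ h => bf_mono u v s h) (fun _ _ h => bi_mono u v s h)

theorem bf1 {u v s x : ℝ} (h : x ≤ u) : bf u v s x = x :=
  max_eq_left (min_le_of_left_le (by linarith))

theorem bf2 {u v s x : ℝ} (hs : 3 * s ≤ v - u) (h : u ≤ x) (h' : x ≤ u + s) :
    bf u v s x = 2 * x - u := by
  unfold bf
  rw [min_eq_left, max_eq_right (by linarith)]
  apply le_min <;> linarith

theorem bf3 {u v s x : ℝ} (hs0 : 0 ≤ s) (h : u + s ≤ x) (h' : x ≤ v - 2 * s) :
    bf u v s x = x + s := by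
  unfold bf
  rw [min_eq_left (a := x + s) (by linarith), min_eq_right (by linarith),
    max_eq_right (by linarith)]

theorem bf4 {u v s x : ℝ} (hs : 3 * s ≤ v - u) (h : v - 2 * s ≤ x) (h' : x ≤ v) :
    bf u v s x = (x + v) / 2 := by
  unfold bf
  rw [min_eq_right (a := x + s) (by linarith), min_eq_right (by linarith),
    max_eq_right (by linarith)]

theorem bf5 {u v s x : ℝ} (h : v ≤ x) : bf u v s x = x :=
  max_eq_left (min_le_of_right_le (min_le_of_right_le (by linarith)))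

theorem bumpIso_pl (u v s : ℝ) (hu : 0 ≤ u) (hv : v ≤ 1) (hs0 : 0 ≤ s) (hs : 3 * s ≤ v - u)
    (du : Dyadic u) (dv : Dyadic v) (ds : Dyadic s) : IsPL (bumpIso u v s hu hv) := by
  classical
  refine ⟨{u, u + s, v - 2 * s, v}, ?_, ?_⟩
  · intro b hb
    simp only [Finset.mem_insert, Finset.mem_singleton] at hb
    rcases hb with rfl | rfl | rfl | rfl
    · exact du
    · exact du.add ds
    · have : Dyadic (2 * s) := by
        have := ds.zpow_mul 1
        simpa using this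
      exact dv.sub this
    · exact dv
  · intro c d hcd hB
    have key : ∀ b ∈ ({u, u + s, v - 2 * s, v} : Finset ℝ), b ≤ (c : ℝ) ∨ (d : ℝ) ≤ b := by
      intro b hb
      by_contra hcon
      push Not at hcon
      exact hB b hb hcon
    have k1 := key u (by simp)
    have k2 := key (u + s) (by simp)
    have k3 := key (v - 2 * s) (by simp)
    have k4 := key v (by simp)
    have hcd' : (c : ℝ) < d := hcd
    have hval : ∀ x : UI, (bumpIso u v s hu hv x : ℝ) = bf u v s x := fun _ => rfl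
    simp only [hval]
    rcases k1 with k1 | k1
    · rcases k2 with k2 | k2
      · rcases k3 with k3 | k3
        · rcases k4 with k4 | k4
          · refine ⟨0, fun x hx hx' => ?_⟩
            have hx1 : (c : ℝ) ≤ x := hx
            rw [bf5 (by linarith), bf5 (by linarith)]; simp
          · refine ⟨-1, fun x hx hx' => ?_⟩
            have hx1 : (c : ℝ) ≤ x := hx
            have hx2 : (x : ℝ) ≤ d := hx'
            rw [bf4 hs (by linarith) (by linarith), bf4 hs (by linarith) (by linarith),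
              zpow_neg_one]
            ring
        · refine ⟨0, fun x hx hx' => ?_⟩
          have hx1 : (c : ℝ) ≤ x := hx
          have hx2 : (x : ℝ) ≤ d := hx'
          rw [bf3 hs0 (by linarith) (by linarith), bf3 hs0 (by linarith) (by linarith), zpow_zero]
          ring
      · refine ⟨1, fun x hx hx' => ?_⟩
        have hx1 : (c : ℝ) ≤ x := hx
        have hx2 : (x : ℝ) ≤ d := hx'
        rw [bf2 hs (by linarith) (by linarith), bf2 hs (by linarith) (by linarith), zpow_one]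
        ring
    · refine ⟨0, fun x hx hx' => ?_⟩
      have hx1 : (c : ℝ) ≤ x := hx
      have hx2 : (x : ℝ) ≤ d := hx'
      rw [bf1 (by linarith), bf1 (by linarith)]; simp

/-- dyadic numbers are dense -/
theorem exists_dyadic {x y : ℝ} (h : x < y) : ∃ z, Dyadic z ∧ x < z ∧ z < y := by
  obtain ⟨k, hk⟩ := pow_unbounded_of_one_lt (1 / (y - x)) (one_lt_two)
  have h0 : 0 < y - x := by linarith
  have h2 : (0 : ℝ) < 2 ^ k := by positivity
  have h1 : 1 < 2 ^ k * (y - x) := by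
    rw [div_lt_iff₀ h0] at hk
    exact hk
  refine ⟨((⌊2 ^ k * x⌋ + 1 : ℤ) : ℝ) / 2 ^ k, ⟨_, k, rfl⟩, ?_, ?_⟩
  · rw [lt_div_iff₀ h2]
    push_cast
    have := Int.lt_floor_add_one (2 ^ k * x)
    linarith
  · rw [div_lt_iff₀ h2]
    push_cast
    have := Int.floor_le (2 ^ k * x)
    nlinarith

theorem exists_dyadic_UI {x y : UI} (h : x < y) : ∃ z : UI, Dyadic z ∧ x < z ∧ z < y := by
  obtain ⟨z, h1, h2, h3⟩ := exists_dyadic (show (x : ℝ) < y from h)
  exact ⟨⟨z, x.2.1.trans h2.le, h3.le.trans y.2.2⟩, h1, h2, h3⟩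

/-- an element supported on `[u, v]` moving all inner points to the right, with known behaviour
at the two ends -/
theorem exists_bump (u v : UI) (du : Dyadic u) (dv : Dyadic v) (huv : u < v) :
    ∃ γ : F, Sup γ u v ∧ (∀ x, u < x → x < v → x < γ.1 x) ∧
      (∃ c : ℝ, 0 < c ∧ ∀ x : UI, u ≤ x → (x : ℝ) ≤ u + c → (γ.1 x : ℝ) = 2 * x - u) ∧
      (∃ c : ℝ, 0 < c ∧ ∀ x : UI, x ≤ v → (v : ℝ) - c ≤ x → (γ.1 x : ℝ) = (x + v) / 2) := by
  have huv' : (u : ℝ) < v := huv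
  obtain ⟨s, ds, hs0, hs⟩ := exists_dyadic (show (0 : ℝ) < (v - u) / 3 by linarith)
  have hs3 : 3 * s ≤ (v : ℝ) - u := by linarith
  refine ⟨⟨bumpIso u v s u.2.1 v.2.2, bumpIso_pl u v s u.2.1 v.2.2 hs0.le hs3 du dv ds⟩,
    ?_, ?_, ⟨s, hs0, ?_⟩, ⟨2 * s, by linarith, ?_⟩⟩
  · intro x hx
    apply Subtype.ext
    change bf u v s x = x
    rcases hx with hx | hx
    · exact bf1 hx
    · exact bf5 hx
  · intro x hx hx'
    change (x : ℝ) < bf u v s x
    have h1 : (u : ℝ) < x := hx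
    have h2 : (x : ℝ) < v := hx'
    unfold bf
    apply lt_max_of_lt_right
    apply lt_min
    · linarith
    · apply lt_min <;> linarith
  · intro x hx hx'
    change bf u v s x = _
    exact bf2 hs3 hx hx'
  · intro x hx hx'
    change bf u v s x = _
    exact bf4 hs3 hx' hx

/-! ### Pushing points -/

theorem push (γ : F) (x y : UI) (h : ∀ z, x ≤ z → z ≤ y → z < γ.1 z) :
    ∃ n : ℕ, y < (γ ^ n).1 x := by
  by_contra hcon
  push Not at hcon
  let S : Set UI := Set.range (fun n : ℕ => (γ ^ n).1 x)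
  have hL : IsLUB S (sSup S) := isLUB_sSup S
  have h1 : x ≤ sSup S := hL.1 ⟨0, rfl⟩
  have h2 : sSup S ≤ y := by
    apply hL.2
    rintro _ ⟨n, rfl⟩
    exact hcon n
  have h3 := h _ h1 h2
  have h4 : γ.1 (sSup S) ≤ sSup S := by
    have h5 : IsLUB (γ.1 '' S) (γ.1 (sSup S)) := by
      rw [OrderIso.isLUB_image, OrderIso.symm_apply_apply]
      exact hL
    apply h5.2
    rintro _ ⟨_, ⟨n, rfl⟩, rfl⟩
    apply hL.1
    refine ⟨n + 1, ?_⟩
    change (γ ^ (n + 1)).1 x = γ.1 ((γ ^ n).1 x)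
    rw [pow_succ', mul_app]
  exact absurd h3 (not_lt.2 h4)

/-- contractions -/
theorem contraction (a b p q : UI) (ha : 0 < a) (hb : b < 1) (hpq : p < q) :
    ∃ γ : F, p ≤ γ.1 a ∧ γ.1 b ≤ q := by
  obtain ⟨p1, dp1, hp1, hp1'⟩ := exists_dyadic_UI hpq
  obtain ⟨q1, dq1, hq1, hq1'⟩ := exists_dyadic_UI hp1'
  have hp1one : p1 < 1 := lt_of_lt_of_le hp1' (Subtype.coe_le_coe.1 q.2.2)
  have hq10 : 0 < q1 := lt_of_le_of_lt (Subtype.coe_le_coe.1 p1.2.1) hq1
  obtain ⟨A, hA, hA1, -, -⟩ := exists_bump 0 q1 dyadic_zero dq1 hq10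
  obtain ⟨B, hB, hB1, -, -⟩ := exists_bump p1 1 dp1 dyadic_one hp1one
  obtain ⟨n, hn⟩ := push B q1 b (fun z hz hz' => hB1 z (hq1.trans_le hz) (hz'.trans_lt hb))
  have h1 : ((B ^ n)⁻¹).1 b < q1 := by
    rw [inv_app]
    exact ((B ^ n).1.symm_apply_lt).2 hn
  set x : UI := ((B ^ n)⁻¹).1 a with hx
  have hx0 : 0 < x := by
    have h2 : ((B ^ n)⁻¹).1 0 = 0 := (hB.pow n).inv 0 (Or.inl (Subtype.coe_le_coe.1 p1.2.1))
    rw [← h2]
    exact (OrderIso.lt_iff_lt _).2 ha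
  have hpq1 : p < q1 := hp1.trans hq1
  obtain ⟨m, hm⟩ := push A x p (fun z hz hz' => hA1 z (hx0.trans_le hz) (hz'.trans_lt hpq1))
  refine ⟨A ^ m * (B ^ n)⁻¹, ?_, ?_⟩
  · rw [mul_app]
    exact hm.le
  · rw [mul_app]
    have h3 : (A ^ m).1 q1 = q1 := hA.pow m q1 (Or.inr le_rfl)
    calc (A ^ m).1 (((B ^ n)⁻¹).1 b) ≤ (A ^ m).1 q1 := (A ^ m).1.monotone h1.le
      _ = q1 := h3
      _ ≤ q := hq1'.le

/-! ### Germs -/

/-- the germ of `f` at an end is multiplication of the distance `κ` by `2 ^ j` -/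
def Germ (κ : UI → ℝ) (f : F) (j : ℤ) : Prop :=
  ∃ c : ℝ, 0 < c ∧ ∀ t : UI, κ t ≤ c → κ (f.1 t) = 2 ^ j * κ t

/-- a distance to one of the ends -/
structure IsEnd (κ : UI → ℝ) : Prop where
  nonneg : ∀ t, 0 ≤ κ t
  mono : ∀ (f : F) x y, κ (f.1 x) ≤ κ (f.1 y) ↔ κ x ≤ κ y
  small : ∀ c : ℝ, 0 < c → ∃ t, 0 < κ t ∧ κ t ≤ c

theorem Germ.mul {κ : UI → ℝ} {i j : ℤ} (hf : Germ κ f i) (hg : Germ κ g j) :
    Germ κ (f * g) (i + j) := by
  obtain ⟨c, hc, h1⟩ := hf
  obtain ⟨c', hc', h2⟩ := hg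
  have h2j : (0 : ℝ) < 2 ^ j := by positivity
  refine ⟨min c' (c / 2 ^ j), by positivity, fun t ht => ?_⟩
  rw [mul_app, h1, h2 t (ht.trans (min_le_left _ _)), zpow_add₀ (by norm_num)]
  · ring
  · rw [h2 t (ht.trans (min_le_left _ _))]
    have := ht.trans (min_le_right _ _)
    rw [le_div_iff₀ h2j] at this
    linarith

theorem Germ.inv {κ : UI → ℝ} (hκ : IsEnd κ) {i : ℤ} (hf : Germ κ f i) : Germ κ f⁻¹ (-i) := by
  obtain ⟨c, hc, h1⟩ := hf
  obtain ⟨t0, h2, h3⟩ := hκ.small c hc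
  have h2i : (0 : ℝ) < 2 ^ i := by positivity
  refine ⟨κ (f.1 t0), by rw [h1 t0 h3]; positivity, fun t ht => ?_⟩
  have h4 : κ (f.1 ((f⁻¹).1 t)) ≤ κ (f.1 t0) := by rwa [app_inv_self]
  rw [hκ.mono] at h4
  have h5 := h1 _ (h4.trans h3)
  rw [app_inv_self] at h5
  rw [h5, ← mul_assoc, ← zpow_add₀ (by norm_num), neg_add_cancel, zpow_zero, one_mul]

theorem Germ.one {κ : UI → ℝ} : Germ κ 1 0 := ⟨1, one_pos, fun t _ => by
  rw [zpow_zero, one_mul]; rfl⟩

theorem Germ.pow {κ : UI → ℝ} {i : ℤ} (hf : Germ κ f i) (n : ℕ) :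
    Germ κ (f ^ n) (n * i) := by
  induction n with
  | zero => simpa using Germ.one
  | succ n ih =>
    have := ih.mul hf
    rw [pow_succ]
    convert this using 1
    push_cast
    ring

theorem Germ.zpow {κ : UI → ℝ} (hκ : IsEnd κ) {i : ℤ} (hf : Germ κ f i) (n : ℤ) :
    Germ κ (f ^ n) (n * i) := by
  cases n with
  | ofNat n =>
    have := hf.pow n
    simpa using this
  | negSucc n =>
    have := (hf.pow (n + 1)).inv hκ
    rw [zpow_negSucc]
    convert this using 1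
    rw [Int.negSucc_eq]
    push_cast
    ring

/-- distance to `0` -/
def k0 (t : UI) : ℝ := t
/-- distance to `1` -/
def k1 (t : UI) : ℝ := 1 - t

theorem isEnd0 : IsEnd k0 where
  nonneg t := t.2.1
  mono f x y := f.1.le_iff_le
  small c hc := ⟨⟨min c 1, by positivity, min_le_right _ _⟩, by
    change 0 < min c 1
    positivity, min_le_left _ _⟩

theorem isEnd1 : IsEnd k1 where
  nonneg t := sub_nonneg.2 t.2.2
  mono f x y := by
    change 1 - (f.1 x : ℝ) ≤ 1 - f.1 y ↔ 1 - (x : ℝ) ≤ 1 - y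
    rw [sub_le_sub_iff_left, sub_le_sub_iff_left]
    exact f.1.le_iff_le
  small c hc := ⟨⟨1 - min c 1, sub_nonneg.2 (min_le_right _ _), by
    have : 0 < min c 1 := by positivity
    linarith⟩, by
    change 0 < 1 - (1 - min c 1)
    have : 0 < min c 1 := by positivity
    linarith, by
    change 1 - (1 - min c 1) ≤ c
    have := min_le_left c 1
    linarith⟩

theorem small_below (B : Finset ℝ) : ∃ d : ℝ, 0 < d ∧ d ≤ 1 ∧ ∀ b ∈ B, ¬ (0 < b ∧ b < d) := by
  classical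
  induction B using Finset.induction_on with
  | empty => exact ⟨1, one_pos, le_rfl, by simp⟩
  | insert b B _ ih =>
    obtain ⟨d, h1, h2, h3⟩ := ih
    by_cases hb : 0 < b
    · refine ⟨min d b, lt_min h1 hb, (min_le_left _ _).trans h2, ?_⟩
      intro b' hb' ⟨h4, h5⟩
      rcases Finset.mem_insert.1 hb' with rfl | hb'
      · exact absurd (h5.trans_le (min_le_right _ _)) (lt_irrefl _)
      · exact h3 b' hb' ⟨h4, h5.trans_le (min_le_left _ _)⟩
    · refine ⟨d, h1, h2, ?_⟩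
      intro b' hb' ⟨h4, h5⟩
      rcases Finset.mem_insert.1 hb' with rfl | hb'
      · exact hb h4
      · exact h3 b' hb' ⟨h4, h5⟩

theorem exists_germ0 (f : F) : ∃ j, Germ k0 f j := by
  obtain ⟨f, B, hB, h⟩ := f
  obtain ⟨d, h1, h2, h3⟩ := small_below B
  have hlt : (0 : UI) < ⟨d, h1.le, h2⟩ := h1
  obtain ⟨k, hk⟩ := h 0 ⟨d, h1.le, h2⟩ hlt (fun b hb => h3 b hb)
  refine ⟨k, d, h1, fun t ht => ?_⟩
  have h4 := hk t t.2.1 ht
  have h5 : f 0 = 0 := map_zero' f
  rw [h5] at h4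
  change (f t : ℝ) = 2 ^ k * (t : ℝ)
  rw [h4]
  simp

theorem exists_germ1 (f : F) : ∃ j, Germ k1 f j := by
  classical
  obtain ⟨f, B, hB, h⟩ := f
  obtain ⟨d, h1, h2, h3⟩ := small_below (B.image (fun b => 1 - b))
  have hlt : (⟨1 - d, by linarith, by linarith⟩ : UI) < 1 := by
    change 1 - d < 1
    linarith
  obtain ⟨k, hk⟩ := h ⟨1 - d, by linarith, by linarith⟩ 1 hlt (by
    rintro b hb ⟨h4, h5⟩
    apply h3 (1 - b) (Finset.mem_image_of_mem _ hb)
    change 1 - d < b at h4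
    change b < 1 at h5
    constructor <;> linarith)
  refine ⟨k, d, h1, fun t ht => ?_⟩
  change 1 - (t : ℝ) ≤ d at ht
  have h4 := hk t (by change 1 - d ≤ (t : ℝ); linarith) t.2.2
  have h6 := hk 1 hlt.le le_rfl
  have h5 : f 1 = 1 := map_one' f
  rw [h5] at h6
  change 1 - (f t : ℝ) = 2 ^ k * (1 - (t : ℝ))
  have h7 : ((1 : UI) : ℝ) = 1 := rfl
  rw [h7] at h6
  rw [h4]
  nth_rewrite 1 [h6]
  ring

/-- compactly supported elements -/
def Cpt (f : F) : Prop := ∃ a b : UI, 0 < a ∧ b < 1 ∧ Sup f a b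

theorem cpt_of_germ (f : F) (h0 : Germ k0 f 0) (h1 : Germ k1 f 0) : Cpt f := by
  obtain ⟨c, hc, h2⟩ := h0
  obtain ⟨c', hc', h3⟩ := h1
  obtain ⟨a, ha, ha'⟩ := isEnd0.small c hc
  obtain ⟨b, hb, hb'⟩ := isEnd1.small c' hc'
  refine ⟨a, b, ha, by change (b : ℝ) < 1; unfold k1 at hb; linarith, ?_⟩
  intro x hx
  apply Subtype.ext
  rcases hx with hx | hx
  · have h4 : k0 x ≤ c := (show (x : ℝ) ≤ a from hx).trans ha'
    have h5 := h2 x h4
    rwa [zpow_zero, one_mul] at h5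
  · have h4 : k1 x ≤ c' := by
      have : (b : ℝ) ≤ x := hx
      unfold k1 at *
      linarith
    have h5 := h3 x h4
    rw [zpow_zero, one_mul] at h5
    change 1 - (f.1 x : ℝ) = 1 - x at h5
    linarith

theorem Cpt.conj (hf : Cpt f) (h : F) : Cpt (h * f * h⁻¹) := by
  obtain ⟨a, b, ha, hb, hs⟩ := hf
  refine ⟨h.1 a, h.1 b, ?_, ?_, hs.conj h⟩
  · have : h.1 0 = 0 := map_zero' h.1
    rw [← this]
    exact (OrderIso.lt_iff_lt _).2 ha
  · have : h.1 1 = 1 := map_one' h.1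
    rw [← this]
    exact (OrderIso.lt_iff_lt _).2 hb

/-- for `a` near `0` and `b` near `1`, there are commuting elements supported in `[0, a]` and
`[b, 1]` whose powers correct all germs -/
theorem correctors (a b : UI) (ha : 0 < a) (hab : a < b) (hb : b < 1) :
    ∃ b0 b1 : F, Sup b0 0 a ∧ Sup b1 b 1 ∧ ∀ x : F, ∃ i j : ℤ, Cpt (x * (b0 ^ i * b1 ^ j)) := by
  obtain ⟨a', da, ha0, haa⟩ := exists_dyadic_UI ha
  obtain ⟨b', db, hbb, hb1⟩ := exists_dyadic_UI hb
  obtain ⟨b0, s0, -, ⟨c, hc, h0⟩, -⟩ := exists_bump 0 a' dyadic_zero da ha0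
  obtain ⟨b1, s1, -, -, ⟨c', hc', h1⟩⟩ := exists_bump b' 1 db dyadic_one hb1
  refine ⟨b0, b1, s0.mono le_rfl haa.le, s1.mono hbb.le le_rfl, fun x => ?_⟩
  have g00 : Germ k0 b0 1 := ⟨c, hc, fun t ht => by
    have := h0 t t.2.1 (by simpa [k0] using ht)
    change (b0.1 t : ℝ) = 2 ^ (1 : ℤ) * (t : ℝ)
    rw [this]
    simp⟩
  have g01 : Germ k1 b0 0 := by
    have ha1 : a' < 1 := haa.trans (hab.trans hb)
    refine ⟨1 - a', sub_pos.2 ha1, fun t ht => ?_⟩
    rw [zpow_zero, one_mul, s0 t (Or.inr ?_)]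
    change 1 - (t : ℝ) ≤ 1 - a' at ht
    change (a' : ℝ) ≤ t
    linarith
  have g11 : Germ k1 b1 (-1) := ⟨c', hc', fun t ht => by
    have := h1 t t.2.2 (by
      change 1 - (t : ℝ) ≤ c' at ht
      change (1 : ℝ) - c' ≤ t
      linarith)
    change 1 - (b1.1 t : ℝ) = 2 ^ (-1 : ℤ) * (1 - (t : ℝ))
    rw [this, zpow_neg_one]
    have h7 : ((1 : UI) : ℝ) = 1 := rfl
    rw [h7]
    ring⟩
  have g10 : Germ k0 b1 0 := by
    have hb0 : 0 < b' := ha.trans (hab.trans hbb)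
    refine ⟨b', hb0, fun t ht => ?_⟩
    rw [zpow_zero, one_mul, s1 t (Or.inl ht)]
  obtain ⟨i, hi⟩ := exists_germ0 x
  obtain ⟨j, hj⟩ := exists_germ1 x
  refine ⟨-i, j, ?_⟩
  apply cpt_of_germ
  · have := hi.mul ((g00.zpow isEnd0 (-i)).mul (g10.zpow isEnd0 j))
    convert this using 1
    ring
  · have := hj.mul ((g01.zpow isEnd1 (-i)).mul (g11.zpow isEnd1 j))
    convert this using 1
    ring

/-! ### The main theorem -/

theorem all_cpt (hΔ : IsBoomerang Δ) (hne : Δ ≠ ⊥) (f g : F) (hf : Cpt f) (hg : Cpt g) :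
    ⁅f, g⁆ ∈ Δ := by
  -- an element of `Δ` moving a point to the right
  obtain ⟨δ, hδ, x, hx⟩ : ∃ δ ∈ Δ, ∃ x : UI, x < δ.1 x := by
    obtain ⟨⟨δ, hδ⟩, h0⟩ := Δ.ne_bot_iff_exists_ne_one.1 hne
    have h1 : δ ≠ 1 := fun e => h0 (Subtype.ext e)
    have h2 : ∃ x, δ.1 x ≠ x := by
      by_contra hcon
      push Not at hcon
      exact h1 (ext_app hcon)
    obtain ⟨x, hx⟩ := h2
    rcases lt_or_gt_of_ne hx with h | h
    · refine ⟨δ⁻¹, Δ.inv_mem hδ, x, ?_⟩
      rw [inv_app]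
      exact (δ.1.lt_symm_apply).2 h
    · exact ⟨δ, hδ, x, h⟩
  obtain ⟨u, du, hxu, hu⟩ := exists_dyadic_UI hx
  obtain ⟨v, dv, huv, hv⟩ := exists_dyadic_UI hu
  have hvδ : v ≤ δ.1 u := hv.le.trans (δ.1.monotone hxu.le)
  obtain ⟨γ, hγ, hmove, -, -⟩ := exists_bump u v du dv huv
  obtain ⟨q, -, huq, hqv⟩ := exists_dyadic_UI huv
  set p : UI := (γ⁻¹).1 q with hp
  have hup : u ≤ p := by
    have h1 : (γ⁻¹).1 u = u := hγ.inv u (Or.inl le_rfl)
    rw [← h1]
    exact (γ⁻¹).1.monotone huq.le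
  have hpq : p < q := by
    rw [hp, inv_app]
    exact (γ.1.symm_apply_lt).2 (hmove q huq hqv)
  have hloc : ∀ f g : F, Sup f p q → Sup g p q → ⁅f, g⁆ ∈ Δ := fun f g hf hg =>
    local_comm hΔ hδ hvδ hγ huv.le hup hpq.le hqv.le hp.symm f g hf hg
  obtain ⟨a1, b1, ha1, hb1, hf1⟩ := hf
  obtain ⟨a2, b2, ha2, hb2, hf2⟩ := hg
  have hp0 : 0 < p := lt_of_lt_of_le (lt_of_le_of_lt (Subtype.coe_le_coe.1 x.2.1) hxu) hup
  have hq1 : q < 1 := lt_of_lt_of_le hqv (Subtype.coe_le_coe.1 v.2.2)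
  obtain ⟨c, hc1, hc2⟩ := contraction (min (min a1 a2) p) (max (max b1 b2) q) p q
    (lt_min (lt_min ha1 ha2) hp0) (max_lt (max_lt hb1 hb2) hq1) hpq
  apply global_comm hΔ c (min_le_right _ _) (le_max_right _ _) hc1 hc2 hloc
  · exact hf1.mono ((min_le_left _ _).trans (min_le_left _ _))
      ((le_max_left _ _).trans (le_max_left _ _))
  · exact hf2.mono ((min_le_left _ _).trans (min_le_right _ _))
      ((le_max_right _ _).trans (le_max_left _ _))

theorem comm_cpt (hΔ : IsBoomerang Δ) (hne : Δ ≠ ⊥) (x u : F) (hu : Cpt u) : ⁅x, u⁆ ∈ Δ := by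
  obtain ⟨a, b, ha, hb, hs⟩ := hu
  obtain ⟨a', -, ha', haa⟩ := exists_dyadic_UI (show (0 : UI) < min a 1 from lt_min ha (by
    change (0 : ℝ) < 1
    norm_num))
  have ha1 : a' < 1 := haa.trans_le (min_le_right _ _)
  obtain ⟨b', -, hb', hbb⟩ := exists_dyadic_UI (max_lt hb ha1)
  obtain ⟨b0, b1, s0, s1, h⟩ := correctors a' b' ha' ((le_max_right _ _).trans_lt hb') hbb
  obtain ⟨i, j, hij⟩ := h x
  have c0 : Commute (b0 ^ i) u := by
    exact ((s0.mono le_rfl (haa.le.trans (min_le_left _ _))).zpow i).comm hs le_rfl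
  have c1 : Commute (b1 ^ j) u := by
    exact (hs.comm (s1.zpow j) ((le_max_left _ _).trans hb'.le)).symm
  have c : Commute (b0 ^ i * b1 ^ j) u := c0.mul_left c1
  have h1 := all_cpt hΔ hne _ u hij ⟨a, b, ha, hb, hs⟩
  have h2 : ⁅x * (b0 ^ i * b1 ^ j), u⁆ = ⁅x, u⁆ := by
    have := commutator_mul (f := x) (g := u) (X := b0 ^ i * b1 ^ j) (Z := 1) (by simpa using c)
      (Commute.one_left _)
    simpa using this
  rwa [h2] at h1

theorem comm_mem (hΔ : IsBoomerang Δ) (hne : Δ ≠ ⊥) (x y : F) : ⁅x, y⁆ ∈ Δ := by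
  have h01 : (0 : UI) < 1 := by
    change (0 : ℝ) < 1
    norm_num
  obtain ⟨a, -, ha, ha1⟩ := exists_dyadic_UI h01
  obtain ⟨b, -, hb, hb1⟩ := exists_dyadic_UI ha1
  obtain ⟨b0, b1, s0, s1, h⟩ := correctors a b ha hb hb1
  obtain ⟨i, j, hx⟩ := h x
  obtain ⟨k, l, hy⟩ := h y
  have c01 : Commute b0 b1 := s0.comm s1 hb.le
  set vx := (b0 ^ i * b1 ^ j)⁻¹ with hvx
  set vy := (b0 ^ k * b1 ^ l)⁻¹ with hvy
  have cv : Commute vx vy := by
    have c1 : Commute (b0 ^ i * b1 ^ j) (b0 ^ k * b1 ^ l) := by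
      apply Commute.mul_left
      · exact ((Commute.refl b0).zpow_zpow i k).mul_right (c01.zpow_zpow i l)
      · exact ((c01.symm).zpow_zpow j k).mul_right ((Commute.refl b1).zpow_zpow j l)
    exact c1.inv_inv
  set ux := x * (b0 ^ i * b1 ^ j) with hux
  set uy := y * (b0 ^ k * b1 ^ l) with huy
  have ex : x = ux * vx := by rw [hux, hvx]; group
  have ey : y = uy * vy := by rw [huy, hvy]; group
  have h1 : ⁅x, y⁆ = ⁅ux * vx * ux⁻¹, ux * uy * ux⁻¹⁆ * ⁅y, ux⁆⁻¹ := by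
    have h2 : ⁅ux * vx * ux⁻¹, ux * uy * ux⁻¹⁆ = ux * ⁅vx, uy⁆ * ux⁻¹ := by
      simp only [commutatorElement_def]; group
    have h3 : ⁅vx, uy⁆ = ⁅vx, y⁆ := by
      rw [ey]
      have := commutator_mul (f := vx) (g := uy) (X := 1) (Z := vy) (Commute.one_left _) cv.symm
      simpa using this.symm
    rw [h2, h3]
    nth_rewrite 1 [ex]
    simp only [commutatorElement_def]
    group
  rw [h1]
  apply Δ.mul_mem
  · exact comm_cpt hΔ hne _ _ (hy.conj ux)
  · exact Δ.inv_mem (comm_cpt hΔ hne _ _ hx)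

theorem boomerang_of_normal {Γ : Type*} [Group Γ] (Δ : Subgroup Γ) (h : Δ.Normal) :
    IsBoomerang Δ := by
  intro γ A B hA hB
  have key : ∀ (g a : Γ), a ∈ Δ.map (MulAut.conj g).toMonoidHom ↔ a ∈ Δ := by
    intro g a
    rw [mem_map_conj]
    constructor
    · intro h1
      have := h.conj_mem _ h1 g
      simpa [mul_assoc] using this
    · intro h1
      have := h.conj_mem _ h1 g⁻¹
      simpa using this
  exact ⟨1, le_rfl, fun a ha => (key _ a).2 (hA a ha), fun b hb => fun h1 => hB b hb ((key _ b).1 h1)⟩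

/-- A subgroup of Thompson's group `F` is a boomerang subgroup if and only if it is normal.
Moreover every nontrivial boomerang subgroup contains the derived subgroup of `F`. -/
theorem result (Δ : Subgroup ThompsonF) :
    (IsBoomerang Δ ↔ Δ.Normal) ∧ (IsBoomerang Δ → Δ = ⊥ ∨ commutator ThompsonF ≤ Δ) := by
  have h1 : IsBoomerang Δ → Δ = ⊥ ∨ commutator ThompsonF ≤ Δ := by
    intro hΔ
    by_cases hne : Δ = ⊥
    · exact Or.inl hne
    · right
      rw [commutator_def, Subgroup.commutator_le]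
      intro x _ y _
      exact comm_mem hΔ hne x y
  refine ⟨⟨fun hΔ => ?_, boomerang_of_normal Δ⟩, h1⟩
  rcases h1 hΔ with rfl | h
  · infer_instance
  · refine ⟨fun n hn g => ?_⟩
    have h2 : ⁅g, n⁆ ∈ Δ := h (Subgroup.commutator_mem_commutator (Subgroup.mem_top _)
      (Subgroup.mem_top _))
    have h3 := Δ.mul_mem h2 hn
    rw [commutatorElement_def] at h3
    simpa using h3

end Pool.Agent.Results.MP_bd6a20_al.BoomerangsNormal
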